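import Pool.Agent.Helper24.Br.Inj
import Pool.Agent.Helper42.EKC.Two
import Pool.Agent.Helper58.CK.InterpB

/-!
The integral means of the class Σ for the positive powers `≥ 2`: `B(t) ≤ t - 1` (area theorem,
sharp bound of the derivative).
-/

set_option autoImplicit false

open Complex MeasureTheory Metric Set Filter
open scoped Real ComplexConjugate Topology

namespace Pool.Agent.Helper69.BF

open Pool.Agent.Helper22.Half (SigmaLog)
open Pool.Agent.Helper39.Area (toDisc)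
open Pool.Agent.Helper24.Br (deriv_ne_of_inj exists_log_ball)
open Pool.Agent.Helper58.CK (SigB circ_ext circ_pow_cont)

/-- the logarithm of the derivative -/
theorem log_of_sigma {ψ : ℂ → ℂ}
    (hψ : DifferentiableOn ℂ ψ {z : ℂ | 1 < ‖z‖})
    (hinj : Set.InjOn ψ {z : ℂ | 1 < ‖z‖})
    (hc : ∃ c : ℂ, Tendsto (fun z => ψ z - z) (Bornology.cobounded ℂ) (𝓝 c)) :
    ∃ h : ℂ → ℂ, SigmaLog ψ h := by
  obtain ⟨c, hc⟩ := hc
  have hne : ∀ z : ℂ, 1 < ‖z‖ → deriv ψ z ≠ 0 :=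
    fun z hz => deriv_ne_of_inj Pool.Agent.Helper39.Area.isOpen_ext hψ hinj hz
  have hexp : ∀ z : ℂ, 1 < ‖z‖ → Complex.exp ((fun z => Complex.log (deriv ψ z)) z) =
      deriv ψ z := fun z hz => Complex.exp_log (hne z hz)
  obtain ⟨hE, hex⟩ := Pool.Agent.Helper39.Area.ext_data hψ hinj hc hexp
  have hq : DifferentiableOn ℂ (fun ζ => 1 - ζ ^ 2 * deriv (toDisc c (fun z => ψ z - z)) ζ)
      (ball 0 1) := by
    have h1 := hE.diff.deriv isOpen_ball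
    have h2 : DifferentiableOn ℂ (fun ζ : ℂ => ζ ^ 2) (ball 0 1) := by fun_prop
    exact (differentiableOn_const (1 : ℂ)).sub (h2.mul h1)
  obtain ⟨H, hH, hH0, hHe⟩ := exists_log_ball hq (fun z hz => hE.ne z hz) (by simp)
  have hz0 : ∀ z : ℂ, 1 < ‖z‖ → z ≠ 0 := by
    rintro z hz rfl
    simp at hz
    linarith
  have hzb : ∀ z : ℂ, 1 < ‖z‖ → z⁻¹ ∈ ball (0 : ℂ) 1 := by
    intro z hz
    rw [mem_ball_zero_iff, norm_inv]
    exact inv_lt_one_of_one_lt₀ hz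
  refine ⟨fun z => H z⁻¹, ⟨hψ, hinj, ⟨c, hc⟩, ?_, ?_, ?_⟩⟩
  · intro z hz
    have h1 : DifferentiableAt ℂ H z⁻¹ := hH.differentiableAt (isOpen_ball.mem_nhds (hzb z hz))
    exact (h1.comp z (differentiableAt_inv (hz0 z hz))).differentiableWithinAt
  · intro z hz
    have h0 := inv_ne_zero (hz0 z hz)
    rw [hHe _ (hzb z hz), ← hex _ (hzb z hz)]
    simp only [toDisc]
    rw [if_neg h0, inv_inv]
    exact Complex.exp_log (hne _ hz)
  · have h1 : ContinuousAt H 0 := (hH.differentiableAt (ball_mem_nhds 0 one_pos)).continuousAt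
    have h2 := h1.tendsto
    rw [hH0] at h2
    exact h2.comp tendsto_inv₀_cobounded

/-- the sharp bound of the derivative -/
theorem deriv_le {ψ h : ℂ → ℂ} (H : SigmaLog ψ h) {z : ℂ} (hz : 1 < ‖z‖) :
    ‖deriv ψ z‖ ≤ ‖z‖ ^ 2 / (‖z‖ ^ 2 - 1) := by
  have h1 := Pool.Agent.Helper39.Area.goluzin_ext H.diff H.inj H.normalised H.hdiff H.exp_eq
    H.lim hz
  have h2 : 0 < ‖z‖ ^ 2 - 1 := by nlinarith
  have h3 : 0 < ‖z‖ ^ 2 / (‖z‖ ^ 2 - 1) := by positivity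
  rw [← H.exp_eq z hz, Complex.norm_exp]
  have h4 : (h z).re ≤ Real.log (‖z‖ ^ 2 / (‖z‖ ^ 2 - 1)) := (Complex.re_le_norm _).trans h1
  calc Real.exp (h z).re ≤ Real.exp (Real.log (‖z‖ ^ 2 / (‖z‖ ^ 2 - 1))) :=
        Real.exp_le_exp.2 h4
    _ = _ := Real.exp_log h3

/-- the second moment -/
theorem sigB_neg_two : SigB (-2) 1 := by
  obtain ⟨C, hC⟩ := Pool.Agent.Helper42.EKC.mom_two
  refine ⟨C, ?_⟩
  intro ψ a1 a2 a3 R hR
  obtain ⟨h, H⟩ := log_of_sigma a1 a2 a3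
  have h1 := hC ψ h H R hR
  have e1 : (‖(2:ℂ)‖ - 1 : ℝ) = 1 := by norm_num
  rw [e1] at h1
  have e2 : (∫ θ in (0:ℝ)..(2 * π), ‖deriv ψ (R * Complex.exp (θ * I))‖ ^ (-(-2:ℝ))) =
      ∫ θ in (0:ℝ)..(2 * π), ‖Complex.exp (2 * h ((R : ℂ) * Complex.exp ((θ : ℂ) * I)))‖ := by
    apply intervalIntegral.integral_congr
    intro θ _
    have h2 : Complex.exp (2 * h ((R : ℂ) * Complex.exp ((θ : ℂ) * I))) =
        deriv ψ (R * Complex.exp (θ * I)) ^ 2 := by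
      rw [← H.exp_eq _ (circ_ext hR θ), ← Complex.exp_nat_mul]
      norm_num
    simp only [h2, norm_pow, neg_neg]
    norm_num
  rw [e2]
  simpa [one_div] using h1

/-- **the positive powers `≥ 2`** -/
theorem sigB_neg {t : ℝ} (ht : 2 ≤ t) : SigB (-t) (t - 1) := by
  obtain ⟨C, hC⟩ := sigB_neg_two
  refine ⟨C, ?_⟩
  intro ψ a1 a2 a3 R hR
  obtain ⟨h, H⟩ := log_of_sigma a1 a2 a3
  have hR2 : 0 < R ^ 2 - 1 := by nlinarith
  have hX : 0 < R ^ 2 / (R ^ 2 - 1) := by positivity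
  obtain ⟨X, hXe⟩ : ∃ X : ℝ, X = R ^ 2 / (R ^ 2 - 1) := ⟨_, rfl⟩
  have h0 := hC ψ a1 a2 a3 R hR
  rw [← hXe] at hX h0 ⊢
  have hpt : ∀ θ : ℝ, ‖deriv ψ (R * Complex.exp (θ * I))‖ ^ (-(-t)) ≤
      X ^ (t - 2) * ‖deriv ψ (R * Complex.exp (θ * I))‖ ^ (-(-2:ℝ)) := by
    intro θ
    have hz : 1 < ‖(R : ℂ) * Complex.exp (θ * I)‖ := circ_ext hR θ
    have hd := deriv_le H hz
    have hn : ‖(R : ℂ) * Complex.exp (θ * I)‖ = R := by
      rw [norm_mul, Complex.norm_exp_ofReal_mul_I, mul_one, Complex.norm_real,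
        Real.norm_of_nonneg (by linarith)]
    rw [hn, ← hXe] at hd
    have hp : 0 < ‖deriv ψ (R * Complex.exp (θ * I))‖ :=
      norm_pos_iff.2 (deriv_ne_of_inj Pool.Agent.Helper39.Area.isOpen_ext a1 a2 hz)
    have e1 : (-(-t) : ℝ) = (t - 2) + (-(-2)) := by ring
    rw [e1, Real.rpow_add hp]
    exact mul_le_mul_of_nonneg_right (Real.rpow_le_rpow hp.le hd (by linarith)) (by positivity)
  have hint : (∫ θ in (0:ℝ)..(2 * π), ‖deriv ψ (R * Complex.exp (θ * I))‖ ^ (-(-t))) ≤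
      ∫ θ in (0:ℝ)..(2 * π), X ^ (t - 2) *
        ‖deriv ψ (R * Complex.exp (θ * I))‖ ^ (-(-2:ℝ)) := by
    apply intervalIntegral.integral_mono_on (by positivity)
    · exact (circ_pow_cont a1 a2 hR _).intervalIntegrable _ _
    · exact ((circ_pow_cont a1 a2 hR _).const_mul _).intervalIntegrable _ _
    · intro θ _
      exact hpt θ
  rw [intervalIntegral.integral_const_mul] at hint
  have hπ : (0:ℝ) ≤ (2 * π)⁻¹ := by positivity
  calc (2 * π)⁻¹ * (∫ θ in (0:ℝ)..(2 * π), ‖deriv ψ (R * Complex.exp (θ * I))‖ ^ (-(-t)))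
      ≤ (2 * π)⁻¹ * (X ^ (t - 2) * ∫ θ in (0:ℝ)..(2 * π),
        ‖deriv ψ (R * Complex.exp (θ * I))‖ ^ (-(-2:ℝ))) := mul_le_mul_of_nonneg_left hint hπ
    _ = X ^ (t - 2) * ((2 * π)⁻¹ * ∫ θ in (0:ℝ)..(2 * π),
        ‖deriv ψ (R * Complex.exp (θ * I))‖ ^ (-(-2:ℝ))) := by ring
    _ ≤ X ^ (t - 2) * (C * X ^ (1:ℝ)) := mul_le_mul_of_nonneg_left h0 (by positivity)
    _ = C * X ^ (t - 1) := by
      have e1 : t - 1 = (t - 2) + 1 := by ring
      rw [e1, Real.rpow_add hX]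
      ring

end Pool.Agent.Helper69.BF
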